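import Pool.Agent.J4.H26.Eu.Big
import Pool.Agent.J4.H26.Ew.All4
import Pool.Agent.J4.H26.Fn.Fin2

/-!
The degrees from which the short Hodge characters come.
-/

set_option autoImplicit false
set_option linter.unusedSectionVars false

namespace Pool.Agent.J4.H26.Eu

open Finset Pool.Agent.Y2 Pool.Agent.J4.H26.Od Pool.Agent.J4.H26.Ev Pool.Agent.J4.H26.Ew
open Pool.Agent.H916R2 hiding LL

/-- The largest divisor of `m` all of whose prime factors are at most `N`. -/
def smoothPart (N m : ℕ) : ℕ := ∏ p ∈ m.primeFactors.filter fun p => p ≤ N, p ^ m.factorization p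

/-- The product of the prime factors of `evenDegree m` which are at most `N`, times two if `4`
divides `m`. It divides twice the product of all primes up to `N` (if `2 ≤ N`). -/
def smallDegree (N m : ℕ) : ℕ :=
  (if 4 ∣ m then 2 else 1) * ∏ p ∈ (evenDegree m).primeFactors.filter fun p => p ≤ N, p

lemma smoothPart_eq {N m d e : ℕ} (hm : m ≠ 0) (hde : d * e = m)
    (hd : ∀ p, p.Prime → p ∣ d → p ≤ N) (he : ∀ p, p.Prime → p ∣ e → N < p) :
    smoothPart N m = d := by
  have hd0 : d ≠ 0 := by rintro rfl; rw [zero_mul] at hde; exact hm hde.symm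
  have he0 : e ≠ 0 := by rintro rfl; rw [mul_zero] at hde; exact hm hde.symm
  have hset : (m.primeFactors.filter fun p => p ≤ N) = d.primeFactors := by
    ext p
    rw [mem_filter, Nat.mem_primeFactors, Nat.mem_primeFactors]
    constructor
    · rintro ⟨⟨hp, hpm, _⟩, hpN⟩
      refine ⟨hp, ?_, hd0⟩
      rw [← hde] at hpm
      rcases (Nat.Prime.dvd_mul hp).mp hpm with h | h
      · exact h
      · have := he p hp h; omega
    · rintro ⟨hp, hpd, _⟩
      exact ⟨⟨hp, hpd.trans (Dvd.intro _ hde), hm⟩, hd p hp hpd⟩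
  unfold smoothPart
  rw [hset]
  conv_rhs => rw [← Nat.prod_factorization_pow_eq_self hd0]
  rw [Nat.prod_factorization_eq_prod_primeFactors]
  refine prod_congr rfl fun p hp => ?_
  obtain ⟨hpp, hpd, _⟩ := Nat.mem_primeFactors.mp hp
  have h3 : e.factorization p = 0 := Nat.factorization_eq_zero_of_not_dvd (fun h => by
    have h1 := he p hpp h
    have h2 := hd p hpp hpd
    omega)
  rw [← hde, Nat.factorization_mul hd0 he0, Finsupp.add_apply, h3, add_zero]

/-- splitting off the small primes -/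
lemma smooth_split {N m : ℕ} (hm : m ≠ 0) : ∃ e, smoothPart N m * e = m ∧
    (∀ p, p.Prime → p ∣ smoothPart N m → p ≤ N) ∧ ∀ p, p.Prime → p ∣ e → N < p := by
  obtain ⟨d, e, hde, hd, he⟩ := split_small N m hm
  have h := smoothPart_eq hm hde hd he
  exact ⟨e, by rw [h]; exact hde, by rw [h]; exact hd, he⟩

lemma evenDegree_eq {m : ℕ} (hm : m ≠ 0) : evenDegree m / m * m = evenDegree m := by
  unfold evenDegree
  split_ifs with h
  · rw [Nat.div_self (Nat.pos_of_ne_zero hm), one_mul]
  · rw [Nat.mul_div_cancel _ (Nat.pos_of_ne_zero hm)]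

lemma evenDegree_ne {m : ℕ} (hm : m ≠ 0) : evenDegree m ≠ 0 := by
  unfold evenDegree
  split_ifs <;> omega

lemma two_dvd_evenDegree (m : ℕ) : 2 ∣ evenDegree m := by
  unfold evenDegree
  split_ifs with h
  · exact h
  · exact dvd_mul_right _ _

lemma four_dvd_evenDegree {m : ℕ} : 4 ∣ evenDegree m ↔ 4 ∣ m := by
  unfold evenDegree
  split_ifs with h
  · exact Iff.rfl
  · constructor <;> intro h' <;> omega

/-- **The large primes play no role.** -/
theorem from_smooth {K m : ℕ} (hK : 2 ≤ K) (hm : m ≠ 0) (s : Multiset (ZMod m))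
    (hs : IsHodge m s) (hne : s ≠ 0) (hcard : Multiset.card s ≤ K) :
    Generated (evenDegree m) (fun u => FromLevel (evenDegree m) (smoothPart (4 * K + 1) m) u ∧
      Multiset.card u ≤ K) (s.map (raise m)) := by
  have hN : NeZero m := ⟨hm⟩
  have hNM : NeZero (evenDegree m) := ⟨evenDegree_ne hm⟩
  obtain ⟨e, hde, hd, he⟩ := smooth_split (N := 4 * K + 1) hm
  set d := smoothPart (4 * K + 1) m with hddef
  clear_value d
  have hd0 : d ≠ 0 := by rintro rfl; rw [zero_mul] at hde; exact hm hde.symm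
  have hNd : NeZero d := ⟨hd0⟩
  obtain ⟨s', hs', hc', hsum⟩ := hodge_part hm hde (fun q hq hqe => he q hq hqe) hK s hs hcard
  have hkm : evenDegree m / m * m = evenDegree m := evenDegree_eq hm
  set M := evenDegree m with hM
  have hMd : M / d * d = M := Nat.div_mul_cancel ((Dvd.intro _ hde).trans (Dvd.intro_left _ hkm))
  have hMd' : M / d = M / m * e := by
    apply Nat.div_eq_of_eq_mul_left (Nat.pos_of_ne_zero hd0)
    conv_lhs => rw [← hkm]
    conv_lhs => rw [← hde]
    rw [hde]
    rw [mul_assoc, mul_comm e d, hde]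
  have hed : e * d = m := by rw [mul_comm]; exact hde
  have h1 := hsum _ _ ((cQ_oddDist (m := M) (base := fun u => FromLevel M d u ∧
    Multiset.card u ≤ K)).comp_iota hkm)
  have h2 := cQ_sum_eq_zero (Generated.ofBase (m := M) (base := fun u => FromLevel M d u ∧
    Multiset.card u ≤ K) (s'.map (iota (M / d))) ⟨⟨s', hs', rfl⟩, by
      rw [Multiset.card_map]; omega⟩)
  have h3 : ((s.map (raise m)).map (cQ M (fun u => FromLevel M d u ∧ Multiset.card u ≤ K))).sum = 0 := by
    rw [Multiset.map_map]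
    change (s.map fun b : ZMod m => cQ M (fun u => FromLevel M d u ∧ Multiset.card u ≤ K)
      (iota (M / m) b)).sum = 0
    rw [h1, ← h2, Multiset.map_map]
    congr 1
    apply Multiset.map_congr rfl
    intro b _
    simp only [Function.comp_apply]
    rw [iota_comp hkm, hMd']
  have hsr : IsHodge M (s.map (raise m)) := hs.iota hkm
  rw [cQ_sum, QuotientAddGroup.eq_zero_iff] at h3
  refine generated_of_mem_LL ?_ ?_ hsr.1 hsr.2.1 ?_ h3
  · rintro u ⟨⟨u0, hu0, rfl⟩, _⟩
    exact ⟨(hu0.iota hMd).1, (hu0.iota hMd).2.1⟩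
  · rintro u ⟨⟨u0, hu0, rfl⟩, hu⟩
    refine ⟨⟨u0.map Neg.neg, hu0.neg, ?_⟩, ?_⟩
    · rw [Multiset.map_map, Multiset.map_map]
      apply Multiset.map_congr rfl
      intro x _
      exact (iota_neg hMd x).symm
    · rw [Multiset.card_map]; exact hu
  · intro h
    rw [Multiset.map_eq_zero] at h
    exact hne h

/-- the small degree -/
lemma smallDegree_spec {N m d e : ℕ} (hm : m ≠ 0) (hN2 : 2 ≤ N) (hde : d * e = evenDegree m)
    (hd : ∀ p, p.Prime → p ∣ d → p ≤ N) (he : ∀ p, p.Prime → p ∣ e → N < p) :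
    smallDegree N m ∣ d ∧ (∀ p, p.Prime → p ∣ d → p ∣ smallDegree N m) ∧
      (4 ∣ d → 4 ∣ smallDegree N m) ∧ smallDegree N m ≠ 0 := by
  have hM := evenDegree_ne hm
  have hd0 : d ≠ 0 := by rintro rfl; rw [zero_mul] at hde; exact hM hde.symm
  have he0 : e ≠ 0 := by rintro rfl; rw [mul_zero] at hde; exact hM hde.symm
  have hset : ((evenDegree m).primeFactors.filter fun p => p ≤ N) = d.primeFactors := by
    ext p
    rw [mem_filter, Nat.mem_primeFactors, Nat.mem_primeFactors]
    constructor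
    · rintro ⟨⟨hp, hpm, _⟩, hpN⟩
      refine ⟨hp, ?_, hd0⟩
      rw [← hde] at hpm
      rcases (Nat.Prime.dvd_mul hp).mp hpm with h | h
      · exact h
      · have := he p hp h; omega
    · rintro ⟨hp, hpd, _⟩
      exact ⟨⟨hp, hpd.trans (Dvd.intro _ hde), hM⟩, hd p hp hpd⟩
  have h2d : 2 ∣ d := by
    have h := two_dvd_evenDegree m
    rw [← hde] at h
    rcases (Nat.Prime.dvd_mul Nat.prime_two).mp h with h | h
    · exact h
    · have := he 2 Nat.prime_two h; omega
  have h2mem : 2 ∈ d.primeFactors := Nat.mem_primeFactors.mpr ⟨Nat.prime_two, h2d, hd0⟩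
  obtain ⟨P, hP⟩ : ∃ P, P = ∏ p ∈ d.primeFactors, p := ⟨_, rfl⟩
  obtain ⟨P', hP'⟩ : ∃ P', P' = ∏ p ∈ d.primeFactors.erase 2, p := ⟨_, rfl⟩
  have hPP : P = 2 * P' := by
    rw [hP, hP']
    exact (Finset.mul_prod_erase _ _ h2mem).symm
  have hPd : P ∣ d := by rw [hP]; exact Nat.prod_primeFactors_dvd d
  have hP0 : P ≠ 0 := by
    rintro rfl
    exact hd0 (Nat.eq_zero_of_zero_dvd hPd)
  have hP'odd : Nat.Coprime 2 P' := by
    rw [hP']
    apply Nat.Coprime.prod_right
    intro p hp
    obtain ⟨h1, h2⟩ := mem_erase.mp hp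
    exact (Nat.coprime_primes Nat.prime_two (Nat.prime_of_mem_primeFactors h2)).mpr (Ne.symm h1)
  have h4d : 4 ∣ d ↔ 4 ∣ m := by
    rw [← four_dvd_evenDegree (m := m), ← hde]
    constructor
    · intro h; exact h.mul_right e
    · intro h
      have h1 : Nat.Coprime 4 e := by
        have : Nat.Coprime 2 e := (Nat.Prime.coprime_iff_not_dvd Nat.prime_two).mpr
          (fun h => by have := he 2 Nat.prime_two h; omega)
        exact this.pow_left 2
      exact h1.dvd_of_dvd_mul_right h
  unfold smallDegree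
  rw [hset, ← hP]
  by_cases h4 : 4 ∣ m
  · rw [if_pos h4]
    have e4 : 2 * P = 4 * P' := by rw [hPP]; ring
    refine ⟨?_, ?_, ?_, by omega⟩
    · rw [e4]
      refine Nat.Coprime.mul_dvd_of_dvd_of_dvd (hP'odd.pow_left 2) (h4d.mpr h4) ?_
      exact (Dvd.intro_left 2 hPP.symm).trans hPd
    · intro p hp hpd
      apply Dvd.dvd.mul_left
      rw [hP]
      exact Finset.dvd_prod_of_mem _ (Nat.mem_primeFactors.mpr ⟨hp, hpd, hd0⟩)
    · intro _
      rw [e4]
      exact Dvd.intro _ rfl
  · rw [if_neg h4, one_mul]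
    refine ⟨hPd, ?_, fun h => absurd (h4d.mp h) h4, hP0⟩
    intro p hp hpd
    rw [hP]
    exact Finset.dvd_prod_of_mem _ (Nat.mem_primeFactors.mpr ⟨hp, hpd, hd0⟩)

lemma smallDegree_dvd {N m : ℕ} (hm : m ≠ 0) (hN2 : 2 ≤ N) :
    smallDegree N m ∣ evenDegree m := by
  obtain ⟨d, e, hde, hd, he⟩ := split_small N (evenDegree m) (evenDegree_ne hm)
  exact (smallDegree_spec hm hN2 hde hd he).1.trans (Dvd.intro _ hde)

/-- it divides twice the primorial -/
lemma smallDegree_dvd_primorial {N m : ℕ} : smallDegree N m ∣ 2 * primorial N := by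
  unfold smallDegree
  apply mul_dvd_mul
  · split_ifs
    · exact dvd_rfl
    · exact one_dvd 2
  · unfold primorial
    apply Finset.prod_dvd_prod_of_subset
    intro p hp
    obtain ⟨h1, h2⟩ := mem_filter.mp hp
    rw [mem_filter, mem_range]
    exact ⟨by omega, Nat.prime_of_mem_primeFactors h1⟩

/-- **All short Hodge characters come from one small degree.** -/
theorem from_small {K m : ℕ} (hK : 2 ≤ K) (hm : m ≠ 0) (s : Multiset (ZMod m))
    (hs : IsHodge m s) (hne : s ≠ 0) (hcard : Multiset.card s ≤ K) :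
    Generated (evenDegree m) (FromLevel (evenDegree m) (smallDegree (4 * K + 1) m))
      (s.map (raise m)) := by
  have hN : NeZero m := ⟨hm⟩
  have hM0 := evenDegree_ne hm
  have hNM : NeZero (evenDegree m) := ⟨hM0⟩
  have hkm : evenDegree m / m * m = evenDegree m := evenDegree_eq hm
  have hsr : IsHodge (evenDegree m) (s.map (raise m)) := hs.iota hkm
  obtain ⟨d, e, hde, hd, he⟩ := split_small (4 * K + 1) (evenDegree m) hM0
  obtain ⟨hD1, hD2, hD3, hD0⟩ := smallDegree_spec hm (by omega) hde hd he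
  set D := smallDegree (4 * K + 1) m with hDdef
  clear_value D
  set M := evenDegree m with hM
  have hd0 : d ≠ 0 := by rintro rfl; rw [zero_mul] at hde; exact hM0 hde.symm
  have hNd : NeZero d := ⟨hd0⟩
  have hND : NeZero D := ⟨hD0⟩
  obtain ⟨s', hs', hc', hsum⟩ := hodge_part hM0 hde (fun q hq hqe => he q hq hqe) hK
    (s.map (raise m)) hsr (by rwa [Multiset.card_map])
  obtain ⟨k, hk⟩ := hD1
  have hkD : k * D = d := by rw [hk]; ring
  have hed : e * d = M := by rw [mul_comm]; exact hde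
  have hekD : (e * k) * D = M := by rw [mul_assoc, hkD, hed]
  have hred : Red d D k := red_exists k d D k rfl hkD hD2 hD3
  have hMD : M / D * D = M := Nat.div_mul_cancel (Dvd.intro_left _ hekD)
  have hMD' : M / D = e * k := Nat.div_eq_of_eq_mul_left (Nat.pos_of_ne_zero hD0) hekD.symm
  set c := cQ M (FromLevel M D) with hc
  have hcodd : OddDist c := cQ_oddDist
  have h1 := hsum _ c hcodd
  have hce : OddDist (fun b : ZMod d => c (iota e b)) := hcodd.comp_iota hed
  obtain ⟨x0, hx0, he0⟩ := hred _ (fun b : ZMod d => c (iota e b)) hce _ hs'.rel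
  rw [sum_count] at he0
  obtain ⟨u0, hu0, hu0s⟩ := exists_hodge x0 hx0
  have hck : OddDist (fun b : ZMod D => c (iota e (iota k b : ZMod d))) := hce.comp_iota hkD
  have h2 := hu0s _ _ hck
  have h3 := cQ_sum_eq_zero (Generated.ofBase (m := M) (base := FromLevel M D)
    (u0.map (iota (M / D))) ⟨u0, hu0, rfl⟩)
  have h4 : ((s.map (raise m)).map c).sum = 0 := by
    rw [h1, he0, h2, ← h3, Multiset.map_map]
    congr 1
    apply Multiset.map_congr rfl
    intro b _
    simp only [Function.comp_apply]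
    rw [iota_comp hed, hMD']
  rw [hc, cQ_sum, QuotientAddGroup.eq_zero_iff] at h4
  refine generated_of_mem_LL ?_ ?_ hsr.1 hsr.2.1 ?_ h4
  · rintro u ⟨u0, hu0, rfl⟩
    exact ⟨(hu0.iota hMD).1, (hu0.iota hMD).2.1⟩
  · rintro u ⟨u0, hu0, rfl⟩
    refine ⟨u0.map Neg.neg, hu0.neg, ?_⟩
    rw [Multiset.map_map, Multiset.map_map]
    apply Multiset.map_congr rfl
    intro x _
    exact (iota_neg hMD x).symm
  · intro h
    rw [Multiset.map_eq_zero] at h
    exact hne h

/-- **One degree, the number of entries is preserved.** -/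
theorem from_one {K m : ℕ} (hK : 2 ≤ K) (hKe : Even K) (hm : m ≠ 0) (s : Multiset (ZMod m))
    (hs : IsHodge m s) (hne : s ≠ 0) (hcard : Multiset.card s ≤ K) :
    Generated (Fn.factor K * m) (fun u => FromLevel (Fn.factor K * m)
      (Nat.gcd (Fn.level K) (smoothPart (4 * K + 1) m)) u ∧ Multiset.card u ≤ K)
      (s.map fun b : ZMod m => ((Fn.factor K * b.val : ℕ) : ZMod (Fn.factor K * m))) := by
  have hN : NeZero m := ⟨hm⟩
  have hF0 : Fn.factor K ≠ 0 := (Fn.factor_pos K).ne'
  have hNM : NeZero (Fn.factor K * m) := ⟨mul_ne_zero hF0 hm⟩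
  obtain ⟨e, hde, hd, he⟩ := smooth_split (N := 4 * K + 1) hm
  set d := smoothPart (4 * K + 1) m with hddef
  clear_value d
  have hd0 : d ≠ 0 := by rintro rfl; rw [zero_mul] at hde; exact hm hde.symm
  have hNd : NeZero d := ⟨hd0⟩
  have hNFd : NeZero (Fn.factor K * d) := ⟨mul_ne_zero hF0 hd0⟩
  obtain ⟨s', hs', hc', hsum⟩ := hodge_part hm hde (fun q hq hqe => he q hq hqe) hK s hs hcard
  obtain ⟨b, hb⟩ := Fn.exists_tuple s'
  rw [← hb] at hs' hsum
  have hcc := Fn.core_character (by omega) hKe (hc'.trans hcard) b hs'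
  obtain ⟨g, hg⟩ : ∃ g, g = Nat.gcd (Fn.level K) d := ⟨_, rfl⟩
  rw [← hg] at hcc ⊢
  obtain ⟨v, hv, hvc, hvs⟩ := hcc
  set M := Fn.factor K * m with hM
  have hg0 : g ≠ 0 := by rw [hg]; exact (Nat.gcd_pos_of_pos_left _ (Fn.level_pos K)).ne'
  have hNg : NeZero g := ⟨hg0⟩
  have hed : e * d = m := by rw [mul_comm]; exact hde
  have heM : e * (Fn.factor K * d) = M := by rw [hM, ← hed]; ring
  have hgd : g ∣ Fn.factor K * d := by rw [hg]; exact (Nat.gcd_dvd_right _ _).mul_left _
  have hgk : Fn.factor K * d / g * g = Fn.factor K * d := Nat.div_mul_cancel hgd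
  have hgM : M / g * g = M := Nat.div_mul_cancel (hgd.trans (Dvd.intro_left _ heM))
  have hgM' : M / g = e * (Fn.factor K * d / g) := by
    apply Nat.div_eq_of_eq_mul_left (Nat.pos_of_ne_zero hg0)
    rw [mul_assoc, hgk, heM]
  set c := cQ M (fun u => FromLevel M g u ∧ Multiset.card u ≤ K) with hc
  have hcodd : OddDist c := cQ_oddDist
  have h1 := hvs _ (fun x : ZMod (Fn.factor K * d) => c (iota e x)) (hcodd.comp_iota heM) (by
    have h3 := cQ_sum_eq_zero (Generated.ofBase (m := M)
      (base := fun u => FromLevel M g u ∧ Multiset.card u ≤ K)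
      (v.map (iota (M / g))) ⟨⟨v, hv, rfl⟩, by rw [Multiset.card_map]; exact hvc⟩)
    rw [← h3, Multiset.map_map, Multiset.map_map]
    congr 1
    apply Multiset.map_congr rfl
    intro x _
    simp only [Function.comp_apply]
    rw [iota_comp heM, hgM'])
  have h2 := hsum _ (fun x : ZMod m => c (iota (Fn.factor K) x)) (hcodd.comp_iota rfl)
  have h4 : ((s.map fun b : ZMod m => ((Fn.factor K * b.val : ℕ) : ZMod M)).map c).sum = 0 := by
    rw [Multiset.map_map]
    change (s.map fun x : ZMod m => c (iota (Fn.factor K) x)).sum = 0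
    rw [h2, ← h1, Multiset.map_map]
    congr 1
    apply Multiset.map_congr rfl
    intro x _
    simp only [Function.comp_apply]
    rw [iota_comp (m := M) rfl, iota_comp heM, mul_comm]
  rw [hc, cQ_sum, QuotientAddGroup.eq_zero_iff] at h4
  have hsr : IsHodge M (s.map fun b : ZMod m => ((Fn.factor K * b.val : ℕ) : ZMod M)) :=
    hs.iota (m := M) (k := Fn.factor K) rfl
  refine generated_of_mem_LL ?_ ?_ hsr.1 hsr.2.1 ?_ h4
  · rintro u ⟨⟨u0, hu0, rfl⟩, _⟩
    exact ⟨(hu0.iota hgM).1, (hu0.iota hgM).2.1⟩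
  · rintro u ⟨⟨u0, hu0, rfl⟩, hu⟩
    refine ⟨⟨u0.map Neg.neg, hu0.neg, ?_⟩, ?_⟩
    · rw [Multiset.map_map, Multiset.map_map]
      apply Multiset.map_congr rfl
      intro x _
      exact (iota_neg hgM x).symm
    · rw [Multiset.card_map]; exact hu
  · intro h
    rw [Multiset.map_eq_zero] at h
    exact hne h

end Pool.Agent.J4.H26.Eu
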