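import Pool.Agent.J4.H26.Ew.Main4

/-!
Removing the large primes from a degree.
-/

set_option autoImplicit false
set_option linter.unusedSectionVars false

namespace Pool.Agent.J4.H26.Eu

open Finset Pool.Agent.Y2 Pool.Agent.J4.H26.Od Pool.Agent.J4.H26.Ev Pool.Agent.J4.H26.Ew
open Pool.Agent.H916R2 hiding LL

/-- the functional vanishes for the large primes -/
lemma same_zero {K q d m : ℕ} {A1 A2 : Multiset ℕ} (H : Set2 q d m A1 A2)
    (hcard : Multiset.card A1 ≤ K) (hqK : 4 * K + 2 ≤ q) (hq7 : 7 ≤ q) : Same q m A1 0 := by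
  have hq := H.hq
  have hm := H.hm
  obtain ⟨e, m', he, hmu, hqm', _⟩ := decomp hm hq (Dvd.intro d H.hqd)
  have hqm : q ^ (e + 1) * m' = m := hmu.symm
  have hqd' : q ^ e * m' = d := by
    have h1 : q * (q ^ e * m') = q * d := by rw [H.hqd, ← hqm]; ring
    exact Nat.eq_of_mul_eq_mul_left hq.pos h1
  by_cases he0 : e = 0
  · have hqd : ¬ q ∣ d := by
      rw [he0, pow_zero, one_mul] at hqd'
      rwa [← hqd']
    have Hc := ctx_one4 H hqd hq7 (by omega) (Or.inr (by omega))
    obtain ⟨J, hJ⟩ := Hc.exists_IsJ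
    obtain ⟨n4, n3, hn4, hn3, hb4, hb3, hn⟩ := Hc.trich4 hJ
    have hq1 : (6 : ℤ) ≤ (q : ℤ) - 1 := by omega
    have hn4' : n4 = 0 := by
      by_contra h0
      have h1n : 1 ≤ |n4| := Int.one_le_abs h0
      have h7 : (q : ℤ) - 1 ≤ 2 * Multiset.card A1 := by nlinarith
      omega
    have hn3' : n3 = 0 := by
      by_contra h0
      have h1n : 1 ≤ |n3| := Int.one_le_abs h0
      have h7 : (q : ℤ) - 1 ≤ 4 * Multiset.card A1 := by nlinarith
      omega
    intro C hC hodd
    have h1 := hn C hC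
    rw [Hc.LL_odd hodd, hn4', hn3'] at h1
    simp only [Multiset.map_zero, Multiset.sum_zero]
    linarith
  · have Hc : Ctx4 q (e + 1) m' m A1 :=
      ⟨hq, hq7, hm, Nat.succ_pos e, hqm, hqm', H.hA, fun i t κ ht hκ h =>
        H.hinv i t κ ht hκ (by rw [← hqd']; simpa using h), by
        unfold nm
        rw [if_neg (by omega)]
        omega, by
        unfold nm
        rw [if_neg (by omega)]
        right; omega⟩
    intro C hC hodd
    have h1 := Hc.zero_of_k (by omega) hC
    rw [Hc.LL_odd hodd] at h1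
    simp only [Multiset.map_zero, Multiset.sum_zero]
    linarith

/-- **Removing the large primes.** -/
theorem zero_big {K d0 : ℕ} : ∀ e0 : ℕ, d0 * e0 ≠ 0 →
    (∀ q, q.Prime → q ∣ e0 → 4 * K + 2 ≤ q ∧ 7 ≤ q) → ∀ A : Multiset ℕ, Multiset.card A ≤ K →
    (∀ t, Nat.Coprime t (d0 * e0) → SW (d0 * e0) A t = 0) →
    ∃ A' : Multiset ℕ, (A'.map fun a => e0 * a) ≤ A ∧
      (∀ t, Nat.Coprime t d0 → SW d0 A' t = 0) ∧
      ∀ (Q : Type) [AddCommGroup Q] (C : ZMod (d0 * e0) → Q), OddDist C →
        (A.map fun a : ℕ => C ((a : ℕ) : ZMod (d0 * e0))).sum =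
          (A'.map fun a : ℕ => C ((e0 * a : ℕ) : ZMod (d0 * e0))).sum := by
  intro e0
  induction e0 using Nat.strong_induction_on with
  | _ e0 ih =>
  intro hm hbig A hcard hrel
  by_cases he1 : e0 = 1
  · subst he1
    refine ⟨A, ?_, ?_, ?_⟩
    · simp
    · intro t ht
      have h1 := hrel t (by rwa [mul_one])
      rwa [mul_one] at h1
    · intro Q _ C _
      simp only [one_mul]
  obtain ⟨q, hq, e1, he1'⟩ := Nat.exists_prime_and_dvd he1
  have hqe : q ∣ e0 := ⟨e1, he1'⟩
  obtain ⟨hqK, hq7⟩ := hbig q hq hqe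
  obtain ⟨m, hmdef⟩ : ∃ m, m = d0 * e0 := ⟨_, rfl⟩
  obtain ⟨d, hddef⟩ : ∃ d, d = d0 * e1 := ⟨_, rfl⟩
  have hqd : q * d = m := by rw [hmdef, hddef, he1']; ring
  rw [← hmdef] at hm hrel
  have hN : NeZero m := ⟨hm⟩
  have hqm : q ∣ m := Dvd.intro d hqd
  have hd0 : d ≠ 0 := by rintro rfl; rw [mul_zero] at hqd; exact hm hqd.symm
  have he10 : e1 ≠ 0 := by rintro rfl; rw [mul_zero] at hddef; exact hd0 hddef
  have hlt : e1 < e0 := by
    rw [he1']
    have : 0 < e1 := Nat.pos_of_ne_zero he10
    nlinarith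
  have hNd : NeZero d := ⟨hd0⟩
  have H := mkSet2 hq hqd hm A hrel
  have hc1 := card_split q A
  have hS : Same q m (A.filter fun a => ¬ q ∣ a) 0 := same_zero (K := K) H (by omega) hqK hq7
  have hfac := factor_pos hq hqm hm (by omega)
  have h0 : ∀ b ∈ (0 : Multiset ℕ), ¬ q ∣ b := fun b hb => absurd hb (Multiset.notMem_zero b)
  subst hmdef
  -- the relations of the other part
  have hlow : ∀ t, Nat.Coprime t d →
      SW d ((A.filter fun a => q ∣ a).map fun a => a / q) t = 0 := by
    intro t ht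
    obtain ⟨t', ht', htt⟩ := lift_coprime (Dvd.intro_left q hqd) hm ht
    have h1 := H.hrel t' ht'
    rw [hS.SW hq hqm hm hfac H.hA h0 ht'] at h1
    have h2 : SW (d0 * e0) (0 : Multiset ℕ) t' = 0 := by unfold Y2.SW; simp
    rw [h2, zero_add] at h1
    rw [← SW_congr _ htt]
    have hq0 : (q : ℤ) ≠ 0 := by exact_mod_cast hq.ne_zero
    rcases mul_eq_zero.mp h1 with h | h
    · exact absurd h hq0
    · exact h
  subst hddef
  obtain ⟨A', hA1, hA2, hA3⟩ := ih e1 hlt hd0
    (fun p hp hpe => hbig p hp (by rw [he1']; exact hpe.mul_left q))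
    ((A.filter fun a => q ∣ a).map fun a => a / q) (by omega) hlow
  refine ⟨A', ?_, hA2, ?_⟩
  · have h1 : (A'.map fun a => e0 * a) = (A'.map fun a => e1 * a).map fun a => q * a := by
      rw [Multiset.map_map]
      apply Multiset.map_congr rfl
      intro a _
      simp only [Function.comp_apply]
      rw [he1']; ring
    rw [h1]
    refine (Multiset.map_le_map hA1).trans ?_
    rw [Multiset.map_map]
    have h2 : (A.filter fun a => q ∣ a).map ((fun a => q * a) ∘ fun a => a / q) =
        A.filter fun a => q ∣ a := by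
      conv_rhs => rw [← Multiset.map_id (A.filter fun a => q ∣ a)]
      apply Multiset.map_congr rfl
      intro a ha
      simp only [Function.comp_apply, id_eq]
      exact Nat.mul_div_cancel' (Multiset.mem_filter.mp ha).2
    rw [h2]
    exact Multiset.filter_le _ _
  · intro Q _ C hC
    rw [split_sum1 (q := q), hS.all hq hqm hm hfac H.hA h0 Q _ hC]
    have hCd : OddDist (fun b : ZMod (d0 * e1) => C (iota q b)) := hC.comp_iota hqd
    have h3 := hA3 Q _ hCd
    have hcq : ∀ a : ℕ, C (iota q ((a : ℕ) : ZMod (d0 * e1))) =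
        C ((q * a : ℕ) : ZMod (d0 * e0)) := by
      intro a
      rw [iota_natCast hqd]
    simp only [hcq] at h3
    rw [h3]
    simp only [Multiset.map_zero, Multiset.sum_zero, zero_add]
    congr 1
    apply Multiset.map_congr rfl
    intro a _
    congr 2
    rw [he1']; ring

/-- the part of a Hodge character which comes from the small primes -/
theorem hodge_part {K d e m : ℕ} (hm : m ≠ 0) (hde : d * e = m)
    (hbig : ∀ q, q.Prime → q ∣ e → 4 * K + 2 ≤ q) (hK : 2 ≤ K) [NeZero d]
    (s : Multiset (ZMod m)) (hs : IsHodge m s) (hcard : Multiset.card s ≤ K) :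
    ∃ s' : Multiset (ZMod d), IsHodge d s' ∧ Multiset.card s' ≤ Multiset.card s ∧
      ∀ (Q : Type) [AddCommGroup Q] (C : ZMod m → Q), OddDist C →
        (s.map C).sum = (s'.map fun b => C (iota e b)).sum := by
  have hN : NeZero m := ⟨hm⟩
  subst hde
  obtain ⟨A', hA1, hA2, hA3⟩ := zero_big (K := K) (d0 := d) e hm
    (fun q hq hqe => ⟨hbig q hq hqe, by have := hbig q hq hqe; omega⟩) (s.map ZMod.val)
    (by rwa [Multiset.card_map]) (fun t ht => saw_rel s hs t ht)
  have hed : e * d = d * e := mul_comm e d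
  have he0 : e ≠ 0 := by rintro rfl; exact hm (mul_zero d)
  have hd0 : d ≠ 0 := NeZero.ne d
  have hA0 : ∀ a ∈ A', ¬ d ∣ a := by
    intro a ha hda
    have h1 : e * a ∈ s.map ZMod.val :=
      Multiset.mem_of_le hA1 (Multiset.mem_map_of_mem _ ha)
    obtain ⟨b, hb, hba⟩ := Multiset.mem_map.mp h1
    have h2 : b = 0 := by
      rw [← ZMod.natCast_zmod_val b, hba, ZMod.natCast_eq_zero_iff, mul_comm d e]
      exact Nat.mul_dvd_mul_left e hda
    exact hs.1 (h2 ▸ hb)
  have hc : Multiset.card A' ≤ Multiset.card s := by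
    have := Multiset.card_le_card hA1
    rwa [Multiset.card_map, Multiset.card_map] at this
  set v : Multiset (ZMod d) := A'.map fun a : ℕ => (a : ZMod d) with hv
  have hv0 : (0 : ZMod d) ∉ v := by
    intro h
    obtain ⟨a, ha, ha0⟩ := Multiset.mem_map.mp h
    rw [ZMod.natCast_eq_zero_iff] at ha0
    exact hA0 a ha ha0
  have hvsaw : ∀ t : (ZMod d)ˣ, (v.map fun a => saw ((t : ZMod d) * a)).sum = 0 := by
    intro t
    have ht := ZMod.val_coe_unit_coprime t
    have h1 := hA2 (t : ZMod d).val ht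
    rw [hv, Multiset.map_map]
    unfold Y2.SW at h1
    rw [← h1]
    congr 1
    apply Multiset.map_congr rfl
    intro a _
    simp only [Function.comp_apply]
    congr 1
    push_cast
    rw [ZMod.natCast_zmod_val]
  have hvsum : ∀ (Q : Type) [AddCommGroup Q] (C : ZMod (d * e) → Q), OddDist C →
      (s.map C).sum = (v.map fun b => C (iota e b)).sum := by
    intro Q _ C hC
    have h1 := hA3 Q C hC
    rw [Multiset.map_map] at h1
    have h2 : (s.map ((fun a : ℕ => C ((a : ℕ) : ZMod (d * e))) ∘ ZMod.val)) = s.map C := by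
      apply Multiset.map_congr rfl
      intro a _
      simp only [Function.comp_apply]
      rw [ZMod.natCast_zmod_val]
    rw [h2] at h1
    rw [h1, hv, Multiset.map_map]
    congr 1
    apply Multiset.map_congr rfl
    intro a _
    simp only [Function.comp_apply]
    rw [iota_natCast hed]
  have hvc : Multiset.card v ≤ Multiset.card s := by rw [hv, Multiset.card_map]; exact hc
  clear_value v
  rcases Nat.even_or_odd (Multiset.card v) with hev | hodd
  · exact ⟨v, isHodge_of_saw hv0 hev hvsaw, hvc, hvsum⟩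
  · -- the number of entries is odd: the degree is even
    have h2d : 2 ∣ d := by
      have h1 := saw_sum_eq v hv0 (1 : (ZMod d)ˣ)
      rw [hvsaw 1] at h1
      have h3 : (2 : ℤ) ∣ (d : ℤ) * (Multiset.card v : ℤ) := by
        have h4 : (d : ℤ) * (Multiset.card v : ℤ) =
            2 * ((v.map fun a => (((1 : (ZMod d)ˣ) : ZMod d) * a).val).sum : ℕ) := by
          linarith
        rw [h4]
        exact Dvd.intro _ rfl
      have h5 : 2 ∣ d * Multiset.card v := by exact_mod_cast h3
      rcases (Nat.Prime.dvd_mul Nat.prime_two).mp h5 with h | h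
      · exact h
      · exfalso
        obtain ⟨k, hk⟩ := hodd
        omega
    set h : ZMod d := ((d / 2 : ℕ) : ZMod d) with hh
    have hhh : h + h = 0 := by
      have : ((2 * (d / 2) : ℕ) : ZMod d) = 0 := by rw [Nat.mul_div_cancel' h2d]; simp
      rw [hh, ← two_mul]; push_cast at this; exact this
    have hh0 : h ≠ 0 := by
      intro h'
      rw [hh, ZMod.natCast_eq_zero_iff] at h'
      have h5 : 0 < d / 2 := Nat.div_pos (Nat.le_of_dvd (Nat.pos_of_ne_zero hd0) h2d) (by norm_num)
      have := Nat.le_of_dvd h5 h'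
      omega
    refine ⟨h ::ₘ v, isHodge_of_saw ?_ ?_ ?_, ?_, ?_⟩
    · rw [Multiset.mem_cons, not_or]; exact ⟨Ne.symm hh0, hv0⟩
    · rw [Multiset.card_cons]; exact hodd.add_one
    · intro t
      rw [Multiset.map_cons, Multiset.sum_cons, hvsaw t, add_zero]
      apply saw_half
      rw [← mul_add, hhh, mul_zero]
    · rw [Multiset.card_cons]
      obtain ⟨k, hk⟩ := hodd
      obtain ⟨k', hk'⟩ := hs.2.1
      omega
    · intro Q _ C hC
      rw [hvsum Q C hC, Multiset.map_cons, Multiset.sum_cons]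
      have h3 : C (iota e h) = 0 := by
        apply hC.half
        rw [← iota_add hed, hhh, iota_zero]
      rw [h3, zero_add]

end Pool.Agent.J4.H26.Eu
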